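import Mathlib
import Pool.Agent.X268.Entropy

set_option autoImplicit false

/-!
# Finite algebraic entropy on an infinite-index subgroup

Q1 of MP_2cfe26_al has a positive answer: if `H` has infinite index in the amenable group `G` and
`ent(α|H) < ∞` then `ent(α) = 0`. Here right Folner nets are defined as in the problem, by
`|{s ∈ F : s E ⊄ F}| / |F| → 0` for all finite `E`.
-/

namespace Pool.Agent.Results.MP_2cfe26_al.EntVanishing

open Pool.Agent.X268.Entropy
open Filter
open scoped ENNReal

/-- `H_alg(X)`: the limit of `log |T_F(X)| / |F|` along right Folner nets. -/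
noncomputable def HalgR (G : Type*) {A : Type*} [Group G] [AddCommGroup A] [DistribMulAction G A]
    (X : Finset A) : ℝ :=
  limUnder (folner' G) (fun F : Finset G => Real.log ((traj F X).card : ℝ) / (F.card : ℝ))

/-- The entropy `ent`: the supremum over finite subgroups. -/
noncomputable def entR (G A : Type*) [Group G] [AddCommGroup A] [DistribMulAction G A] : ℝ≥0∞ :=
  ⨆ (X : Finset A) (_ : ∃ K : AddSubgroup A, (K : Set A) = (X : Set A)), ENNReal.ofReal (HalgR G X)

lemma entR_eq (G A : Type*) [Group G] [AddCommGroup A] [DistribMulAction G A] :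
    entR G A = ent G A := by
  unfold entR ent HalgR Halg
  rw [folner'_eq]

/-- **Positive answer to Q1 of MP_2cfe26_al** (`H` need not even be non-trivial). -/
theorem result {G A : Type*} [Group G] [AddCommGroup A] [DistribMulAction G A]
    (hG : Amenable G) (H : Subgroup G) (hH : H.index = 0) (h : entR H A < ⊤) : entR G A = 0 := by
  rw [entR_eq] at h ⊢
  exact ent_eq_zero H hG hH h

end Pool.Agent.Results.MP_2cfe26_al.EntVanishing
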